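import Mathlib
import Pool.Agent.H77.TO.Prob

set_option autoImplicit false

/-!
# Decimal repunits: primes for which a positive proportion of the last digits are ones

For a sequence `d` of decimal digits let `N w d k l` be the number whose last `k` digits are those of `w k`
and whose other digits are `d (l - 1), ..., d 1, d 0`:
`N w d k l = w k + 10 ^ k * ∑ i < l, d i * 10 ^ i`.
For the repunits `w k = R k` the last `k` digits are `1`, and for `d = 1, 1, 1, ...` we get the repunit
`R (k + l)`.  We prove that there is a number `L` such that for every sequence `w` of prescribed last blocks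
(`w k` has `k` digits and is prime to `10`), in particular for the repunits, and for almost every sequence `d`
of independent uniformly distributed digits (that is for Haar almost every `10`-adic integer `... d 2 d 1 d 0`)
infinitely many primes are of the form `N w d k l` with `l ≤ L k`: a positive proportion `k / (k + l)`,
at least `1 / (L + 1)`, of the digits is prescribed.

In the earlier results for this problem (library) the digits behind a positive proportion of prescribed FIRST
digits are random, or all digits but a bounded number of last digits.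

Proof: a bound of Linnik's type for the primes in the classes modulo powers of ten
(`Pool.Agent.H77.TO.lin10`; the analytic part is in the library, here we show that real characters modulo
`10 ^ k` have bounded conductor); for fixed digits `d 0, ..., d (m - 1)` it gives the expected number of
the `l` in `(m, 32 K m]` with `N w d m l` prime up to constants, the Brun-Titchmarsh inequality gives the second
moment, so that there is such an `l` with probability at least `c / log m`; the sum over the blocks
`m = m₁ (32 K) ^ i` diverges.
-/

namespace Pool.Agent.Results.MP_adea1b_nt.TrailingRepunit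

open MeasureTheory

/-- The repunit with `k` digits. -/
def R (k : ℕ) : ℕ := ∑ i ∈ Finset.range k, 10 ^ i

/-- Independent uniformly distributed decimal digits. -/
noncomputable def digits : Measure (ℕ → Fin 10) :=
  Measure.infinitePi (fun _ : ℕ => ProbabilityTheory.uniformOn (Set.univ : Set (Fin 10)))

/-- The last `k` digits are those of `w k`, the other digits are `d (l - 1), ..., d 1, d 0`. -/
def N (w : ℕ → ℕ) (d : ℕ → Fin 10) (k l : ℕ) : ℕ :=
  w k + 10 ^ k * ∑ i ∈ Finset.range l, (d i : ℕ) * 10 ^ i

lemma R_succ (k : ℕ) : R (k + 1) = R k + 10 ^ k := Finset.sum_range_succ _ _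

lemma R_lt (k : ℕ) : R k < 10 ^ k := by
  induction k with
  | zero => simp [R]
  | succ k ih => rw [R_succ, pow_succ]; omega

lemma R_mod {k : ℕ} (hk : 1 ≤ k) : R k % 10 = 1 := by
  induction k, hk using Nat.le_induction with
  | base => simp [R]
  | succ k hk ih =>
    rw [R_succ]
    obtain ⟨j, rfl⟩ : ∃ j, k = j + 1 := ⟨k - 1, by omega⟩
    rw [pow_succ]
    omega

lemma R_add (k l : ℕ) : R (k + l) = R k + 10 ^ k * R l := by
  unfold R
  rw [Finset.sum_range_add, Finset.mul_sum]
  congr 1
  exact Finset.sum_congr rfl fun i _ => pow_add _ _ _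

/-- (1) The repunits are admissible blocks, and the sequence `1, 1, 1, ...` gives the repunits. (2) There is `L`
such that for every sequence `w` of prescribed last blocks, in particular for the repunits, and for almost every
sequence `d` of digits infinitely many primes are of the form `N w d k l` with `l ≤ L k`. -/
theorem result :
    ((∀ k, 1 ≤ k → R k < 10 ^ k ∧ (R k).Coprime 10) ∧ ∀ k l, N R (fun _ => 1) k l = R (k + l)) ∧
    ∃ L : ℕ, ∀ w : ℕ → ℕ, (∀ k, 1 ≤ k → w k < 10 ^ k ∧ (w k).Coprime 10) →
      ∀ᵐ d ∂digits, {P : ℕ | P.Prime ∧ ∃ k l : ℕ, l ≤ L * k ∧ P = N w d k l}.Infinite := by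
  refine ⟨⟨fun k hk => ⟨R_lt k, ?_⟩, fun k l => ?_⟩, ?_⟩
  · rw [Nat.coprime_iff_gcd_eq_one, Nat.gcd_comm, Nat.gcd_rec, R_mod hk]
    simp
  · unfold N
    rw [R_add]
    congr 2
    unfold R
    exact Finset.sum_congr rfl fun i _ => by simp
  · obtain ⟨K, hK, m0, hm0, h⟩ := Pool.Agent.H77.TO.chain
    refine ⟨32 * K, fun w hw => ?_⟩
    have h1 : ∀ᵐ d ∂digits, ∀ m1 : ℕ, m0 ≤ m1 → ∃ m : ℕ, m1 ≤ m ∧ ∃ l : ℕ, l ≤ 32 * K * m ∧
        Pool.Agent.H77.TO.Good (w m) m (Pool.Agent.W66L.dsum 10 l d) := by
      rw [ae_all_iff]
      intro m1
      by_cases hm1 : m0 ≤ m1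
      · filter_upwards [h w hw m1 hm1] with d hd _
        exact hd
      · filter_upwards with d h2
        exact absurd h2 hm1
    filter_upwards [h1] with d hd
    rw [Set.infinite_iff_exists_gt]
    intro a
    obtain ⟨m, hm, l, hl, hG⟩ := hd (max m0 a) (le_max_left _ _)
    refine ⟨N w d m l, ⟨hG.1, m, l, hl, rfl⟩, ?_⟩
    have h2 : 10 ^ (32 * m) < N w d m l := hG.2
    calc a ≤ m := (le_max_right _ _).trans hm
      _ ≤ 32 * m := by omega
      _ ≤ 10 ^ (32 * m) := (Nat.lt_pow_self (by norm_num)).le
      _ < _ := h2

end Pool.Agent.Results.MP_adea1b_nt.TrailingRepunit
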